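import Pool.Agent.J4H22.IX.Stm

/-! Project IX (helper22), piece A2: from unique representations to all queries. -/

set_option autoImplicit false

namespace Pool.Agent.J4H21.IX

open Finset Pool.Agent.J4H22.IX

theorem rep_mono {S A B : Finset ℕ} (h : S ⊆ A) (z : ℕ) : rep S B z ≤ rep A B z := by
  unfold rep
  exact Finset.card_le_card (Finset.filter_subset_filter _ (Finset.product_subset_product h (Finset.Subset.refl B)))

theorem t_A2 : S_A2 := by
  classical
  intro hISO hHIT hSAM hTRE hIDX n s w t hn hS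
  obtain ⟨Q, hQ, hQm⟩ := hS
  haveI : Inhabited (Fin (2 ^ w)) := ⟨⟨0, by positivity⟩⟩
  let κ : Type := Fin (w + 1) × Fin (4 * (w + 1))
  have hκ : Fintype.card κ = 4 * (w + 1) ^ 2 := by
    show Fintype.card (Fin (w + 1) × Fin (4 * (w + 1))) = _
    rw [Fintype.card_prod, Fintype.card_fin, Fintype.card_fin]
    ring
  have hT : ∀ z : ℕ, ∃ T : Tree (Empty ⊕ κ × Fin s) (Fin (2 ^ w)) Bool, T.Probes (4 * (w + 1) ^ 2 * t) ∧
      ∀ m : Empty ⊕ κ × Fin s → Fin (2 ^ w), T.eval m =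
        decide (∃ c : κ, (Q z).eval (fun i => m (Sum.inr (c, i))) = true) := by
    intro z
    obtain ⟨T, h1, h2⟩ := hTRE (Fin s) (Fin (2 ^ w)) Bool Bool Empty κ Q t hQ (fun _ _ => z)
      (fun _ r => decide (∃ c, r c = true))
    rw [hκ, Fintype.card_eq_zero, zero_add] at h1
    exact ⟨T, h1, h2⟩
  choose T hT1 hT2 using hT
  have hcard : Fintype.card (Empty ⊕ κ × Fin s) ≤ 4 * (w + 1) ^ 2 * s := by
    rw [Fintype.card_sum, Fintype.card_prod, hκ, Fintype.card_fin, Fintype.card_eq_zero, zero_add]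
  obtain ⟨Q', hQ1, hQ2⟩ := hIDX (Empty ⊕ κ × Fin s) (Fin (2 ^ w)) Bool (4 * (w + 1) ^ 2 * s) (4 * (w + 1) ^ 2 * t) hcard T hT1
  refine ⟨Q', hQ1, fun A B hA hB hAN hBN => ?_⟩
  obtain ⟨S, hSA, hSz⟩ := hISO hHIT hSAM w A B (hA.trans hn)
  have hm : ∀ c : κ, ∃ m : Fin s → Fin (2 ^ w), ∀ z, OkWeak (S c.1 c.2) B z ((Q z).eval m) := fun c =>
    hQm (S c.1 c.2) B ((Finset.card_le_card (hSA c.1 c.2)).trans hA) hB (fun x hx => hAN x (hSA c.1 c.2 hx)) hBN
  choose m hm using hm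
  obtain ⟨m', hm'⟩ := hQ2 (Sum.elim (fun e => e.elim) (fun p => m p.1 p.2))
  refine ⟨m', fun z => ?_⟩
  rw [hm' z, hT2 z]
  unfold OkFull
  rw [decide_eq_true_iff]
  constructor
  · rintro ⟨c, hc⟩
    have h1 := hm c z
    have h2 := rep_mono (B := B) (hSA c.1 c.2) z
    by_cases h3 : rep (S c.1 c.2) B z ≤ 1
    · have h4 := (h1 h3).1 hc
      omega
    · omega
  · intro h
    have hz : z < 2 ^ (w + 1) := by
      unfold rep at h
      obtain ⟨⟨x, y⟩, hxy⟩ := Finset.card_pos.1 h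
      rw [Finset.mem_filter, Finset.mem_product] at hxy
      have h1 := hAN x hxy.1.1
      have h2 := hBN y hxy.1.2
      have h3 : x + y = z := hxy.2
      rw [pow_succ]
      omega
    obtain ⟨i, j, hij⟩ := hSz z hz h
    exact ⟨(i, j), (hm (i, j) z hij.le).2 hij.ge⟩

end Pool.Agent.J4H21.IX
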