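import Pool.Agent.J4H22.IX.Stm

/-! Project IX (helper22), piece HB: few multipliers are bad. -/

set_option autoImplicit false

namespace Pool.Agent.J4H21.IX

open Finset Pool.Agent.J4H22.IX

theorem t_HB : S_HB := by
  classical
  intro p q n N A B z hp hN hn hq h256 h64 hA hB hAN hBN hz
  have hpI : Prime (p : ℤ) := Nat.prime_iff_prime_int.1 hp
  set D : Finset ℤ := (Finset.Icc (-(2 * (q : ℤ) - 1)) (2 * (q : ℤ) - 1)).erase 0 with hD
  have hDc : D.card = 4 * q - 2 := by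
    rw [hD, Finset.card_erase_of_mem (by rw [Finset.mem_Icc]; omega), Int.card_Icc]
    omega
  -- uniqueness
  have huniq : ∀ x ∈ A, ∀ y ∈ B, x + y ≠ z → ∀ (d : ℤ) (a a' : ℕ), a < p → a' < p →
      (p : ℤ) ∣ (a : ℤ) * (x + y - z) - d → (p : ℤ) ∣ (a' : ℤ) * (x + y - z) - d → a = a' := by
    intro x hx y hy hxy d a a' ha ha' h1 h2
    have hx' := hAN x hx
    have hy' := hBN y hy
    have h3 : (p : ℤ) ∣ ((a : ℤ) - a') * (x + y - z) := by
      have := dvd_sub h1 h2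
      have e : (a : ℤ) * (x + y - z) - d - ((a' : ℤ) * (x + y - z) - d) = ((a : ℤ) - a') * (x + y - z) := by ring
      rwa [e] at this
    rcases hpI.dvd_or_dvd h3 with h4 | h4
    · have h5 := Int.eq_zero_of_abs_lt_dvd h4 (by rw [abs_lt]; omega)
      omega
    · have h5 := Int.eq_zero_of_abs_lt_dvd h4 (by rw [abs_lt]; omega)
      omega
  let g : (ℕ × ℕ) × ℤ → ℕ := fun t =>
    if h : ∃ a : ℕ, a < p ∧ (p : ℤ) ∣ (a : ℤ) * (t.1.1 + t.1.2 - z) - t.2 then h.choose else 0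
  have hsub : {a : ℕ | 1 ≤ a ∧ a < p ∧ ∃ x ∈ A, ∃ y ∈ B, x + y ≠ z ∧ ∃ d : ℤ, |d| < 2 * q ∧
      (p : ℤ) ∣ (a : ℤ) * (x + y - z) - d} ⊆ (((A ×ˢ B) ×ˢ D).image g : Finset ℕ) := by
    rintro a ⟨ha1, ha, x, hx, y, hy, hxy, d, hd, hdvd⟩
    have hx' := hAN x hx
    have hy' := hBN y hy
    have hd0 : d ≠ 0 := by
      rintro rfl
      rw [sub_zero] at hdvd
      rcases hpI.dvd_or_dvd hdvd with h4 | h4
      · have h5 := Int.eq_zero_of_abs_lt_dvd h4 (by rw [abs_lt]; omega)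
        omega
      · have h5 := Int.eq_zero_of_abs_lt_dvd h4 (by rw [abs_lt]; omega)
        omega
    rw [Finset.mem_coe, Finset.mem_image]
    refine ⟨((x, y), d), ?_, ?_⟩
    · rw [Finset.mem_product, Finset.mem_product]
      refine ⟨⟨hx, hy⟩, ?_⟩
      rw [hD, Finset.mem_erase, Finset.mem_Icc]
      rw [abs_lt] at hd
      refine ⟨hd0, ?_, ?_⟩ <;> omega
    · have hex : ∃ a : ℕ, a < p ∧ (p : ℤ) ∣ (a : ℤ) * (x + y - z) - d := ⟨a, ha, hdvd⟩
      have hg : g ((x, y), d) = hex.choose := dif_pos hex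
      rw [hg]
      obtain ⟨h1, h2⟩ := hex.choose_spec
      exact huniq x hx y hy hxy d _ _ h1 ha h2 hdvd
  have h1 := Set.ncard_le_ncard hsub (Finset.finite_toSet _)
  rw [Set.ncard_coe_finset] at h1
  have h2 : (((A ×ˢ B) ×ˢ D).image g).card ≤ n * n * (4 * q - 2) := by
    refine Finset.card_image_le.trans ?_
    rw [Finset.card_product, Finset.card_product, hDc]
    exact Nat.mul_le_mul_right _ (Nat.mul_le_mul hA hB)
  have h3 := h1.trans h2
  obtain ⟨q', rfl⟩ : ∃ q', q = q' + 1 := ⟨q - 1, by omega⟩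
  have e : 4 * (q' + 1) - 2 = 4 * q' + 2 := by omega
  rw [e] at h3
  rw [Nat.add_sub_cancel] at h64
  have h4 : 8 * (n * n * (4 * q' + 2)) ≤ p - 1 := by
    have h5 : 2 * (8 * (n * n * (4 * q' + 2))) ≤ p + 32 * n ^ 2 := by nlinarith
    have h6 : 1 ≤ n ^ 2 := Nat.one_le_pow _ _ hn
    omega
  omega

end Pool.Agent.J4H21.IX
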